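import Pool.Agent.helper74.GN.Defs

/-! # GNU project (MP_d11331_al), module GN5b: groups of order `v ^ 2` -/

namespace Pool.Agent.helper74.GN

/-- A cyclic group of order `n`. -/
theorem h9_cyc {n : ℕ} {H : Type} [Group H] (hH : Nat.card H = n) (hc : IsCyclic H) :
    Nonempty (H ≃* Multiplicative (ZMod n)) := by
  subst hH
  exact ⟨(zmodCyclicMulEquiv hc).symm⟩

/-- A group of order `v ^ 2` is cyclic or of exponent `v`. -/
theorem h9_dich {v : ℕ} (hv : v.Prime) {H : Type} [Group H] (hH : Nat.card H = v ^ 2) :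
    IsCyclic H ∨ ∀ x : H, x ^ v = 1 := by
  have : Fact v.Prime := ⟨hv⟩
  have : Finite H := Nat.finite_of_card_ne_zero (hH ▸ pow_ne_zero 2 hv.ne_zero)
  by_cases h : ∀ x : H, x ^ v = 1
  · exact Or.inr h
  · left
    push Not at h
    obtain ⟨x, hx⟩ := h
    have h1 : orderOf x ∣ v ^ 2 := hH ▸ orderOf_dvd_natCard x
    obtain ⟨k, hk, hk'⟩ := (Nat.dvd_prime_pow hv).1 h1
    refine isCyclic_of_orderOf_eq_card x ?_
    rw [hH, hk']
    have : k ≠ 0 ∧ k ≠ 1 := by
      constructor
      · rintro rfl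
        exact hx (by rw [← orderOf_dvd_iff_pow_eq_one, hk']; simp)
      · rintro rfl
        exact hx (by rw [← orderOf_dvd_iff_pow_eq_one, hk']; simp)
    congr 1
    omega

/-- An elementary abelian group of order `v ^ 2` as a vector space. -/
theorem h9_ea {v : ℕ} [Fact v.Prime] {H : Type} [CommGroup H] (hH : Nat.card H = v ^ 2)
    [Module (ZMod v) (Additive H)] : Module.finrank (ZMod v) (Additive H) = 2 := by
  have hv : v.Prime := Fact.out
  have : Finite H := Nat.finite_of_card_ne_zero (hH ▸ pow_ne_zero 2 hv.ne_zero)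
  have : Finite (Additive H) := ‹Finite H›
  have h1 : Nat.card (Additive H) = Nat.card (ZMod v) ^ Module.finrank (ZMod v) (Additive H) :=
    Module.natCard_eq_pow_finrank
  rw [Nat.card_zmod] at h1
  have h2 : Nat.card (Additive H) = v ^ 2 := hH
  rw [h2] at h1
  exact (Nat.pow_right_injective hv.two_le h1).symm

theorem h9_ea_iso' {v : ℕ} [Fact v.Prime] {H : Type} [CommGroup H] (hH : Nat.card H = v ^ 2)
    [Module (ZMod v) (Additive H)] : Nonempty (H ≃* Multiplicative (ZMod v × ZMod v)) := by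
  have hv : v.Prime := Fact.out
  have h1 := h9_ea (v := v) hH
  have h2 : Module.finrank (ZMod v) (ZMod v × ZMod v) = 2 := by simp
  have : Module.Finite (ZMod v) (Additive H) :=
    Module.finite_of_finrank_pos (by rw [h1]; norm_num)
  let e : Additive H ≃ₗ[ZMod v] (ZMod v × ZMod v) :=
    LinearEquiv.ofFinrankEq _ _ (h1.trans h2.symm)
  exact ⟨AddEquiv.toMultiplicativeRight e.toAddEquiv⟩

theorem h9_ea_iso {v : ℕ} (hv : v.Prime) {H : Type} [Group H] (hH : Nat.card H = v ^ 2)
    (hx : ∀ x : H, x ^ v = 1) : Nonempty (H ≃* Multiplicative (ZMod v × ZMod v)) := by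
  have : Fact v.Prime := ⟨hv⟩
  let _ : CommGroup H := IsPGroup.commGroupOfCardEqPrimeSq hH
  have h0 : ∀ x : Additive H, v • x = 0 := fun x => hx x
  let _ : Module (ZMod v) (Additive H) := AddCommGroup.zmodModule h0
  exact h9_ea_iso' hH

theorem h9_not_iso {v : ℕ} (hv : v.Prime)
    (e : Multiplicative (ZMod (v ^ 2)) ≃* Multiplicative (ZMod v × ZMod v)) : False := by
  have h1 : ∀ x : Multiplicative (ZMod v × ZMod v), x ^ v = 1 := by
    intro x
    refine Multiplicative.toAdd.injective ?_
    show v • (Multiplicative.toAdd x) = 0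
    ext
    · simp
    · simp
  have h2 : (Multiplicative.ofAdd (1 : ZMod (v ^ 2))) ^ v = 1 := by
    apply e.injective
    rw [map_pow, h1, map_one]
  have h3 : ((v : ℕ) : ZMod (v ^ 2)) = 0 := by
    have := congrArg Multiplicative.toAdd h2
    simpa using this
  rw [ZMod.natCast_eq_zero_iff] at h3
  have h4 := Nat.le_of_dvd hv.pos h3
  have := hv.two_le
  nlinarith

/-- GN5b -/
theorem p2 {v : ℕ} (hv : v.Prime) : Classified (v ^ 2) (Fin 2) := by
  have : Fact v.Prime := ⟨hv⟩
  let G : Fin 2 → Type := fun i => match i with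
    | 0 => Multiplicative (ZMod (v ^ 2))
    | 1 => Multiplicative (ZMod v × ZMod v)
  let inst : ∀ i, Group (G i) := fun i => match i with
    | 0 => inferInstanceAs (Group (Multiplicative (ZMod (v ^ 2))))
    | 1 => inferInstanceAs (Group (Multiplicative (ZMod v × ZMod v)))
  refine ⟨G, inst, ?_, ?_, ?_⟩
  · intro i
    fin_cases i
    · exact Nat.card_zmod _
    · show Nat.card (ZMod v × ZMod v) = _
      rw [Nat.card_prod, Nat.card_zmod, sq]
  · intro i j
    fin_cases i <;> fin_cases j
    · intro _; rfl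
    · rintro ⟨e⟩
      exact (h9_not_iso hv e).elim
    · rintro ⟨e⟩
      exact (h9_not_iso hv e.symm).elim
    · intro _; rfl
  · intro H _ hH
    rcases h9_dich hv hH with h | h
    · exact ⟨0, h9_cyc hH h⟩
    · exact ⟨1, h9_ea_iso hv hH h⟩

end Pool.Agent.helper74.GN
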