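import Mathlib

/-! # GNU project (MP_d11331_al), module GN9a, part 1: diagonalisation in dimension two -/

namespace Pool.Agent.helper74.GN

open Finset

theorem h9_sum_shift {V : Type*} [AddCommGroup V] (C : ℕ) (g : ℕ → V) (h : g C = g 0) :
    ∑ j ∈ range C, g (j + 1) = ∑ j ∈ range C, g j := by
  have h1 := sum_range_succ g C
  have h2 := sum_range_succ' g C
  rw [h1, h] at h2
  exact (add_right_cancel h2).symm

theorem h9_span {F V : Type*} [Field F] [AddCommGroup V] [Module F V] {C : ℕ} (hC : 0 < C)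
    (hC0 : (C : F) ≠ 0) {μ : F} (hμ : IsPrimitiveRoot μ C) (f : V →ₗ[F] V) (hf : f ^ C = 1) :
    Submodule.span F {x : V | ∃ k : ℕ, f x = μ ^ k • x} = ⊤ := by
  rw [eq_top_iff]
  intro x _
  have hμ0 : μ ≠ 0 := hμ.ne_zero hC.ne'
  have hinv : (μ⁻¹) ^ C = 1 := by rw [inv_pow, hμ.pow_eq_one, inv_one]
  let g : ℕ → ℕ → V := fun k j => (μ⁻¹) ^ (k * j) • (f ^ j) x
  have hg : ∀ k j, f (g k j) = μ ^ k • g k (j + 1) := by
    intro k j
    simp only [g, map_smul]
    rw [smul_smul, pow_succ' f, mul_add, pow_add, mul_one]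
    congr 1
    rw [mul_left_comm, ← mul_pow, mul_inv_cancel₀ hμ0, one_pow, mul_one]
  have hgC : ∀ k, g k C = g k 0 := by
    intro k
    have h1 : (μ⁻¹) ^ (k * C) = 1 := by rw [mul_comm, pow_mul, hinv, one_pow]
    show (μ⁻¹) ^ (k * C) • (f ^ C) x = (μ⁻¹) ^ (k * 0) • (f ^ 0) x
    rw [h1, hf, mul_zero, pow_zero, pow_zero]
  have hP : ∀ k, f (∑ j ∈ range C, g k j) = μ ^ k • ∑ j ∈ range C, g k j := by
    intro k
    rw [map_sum, ← h9_sum_shift C (g k) (hgC k), smul_sum]
    exact sum_congr rfl fun j _ => hg k j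
  have hsum : ∑ k ∈ range C, ∑ j ∈ range C, g k j = (C : F) • x := by
    rw [sum_comm]
    have h1 : ∀ j ∈ range C, j ≠ 0 → ∑ k ∈ range C, g k j = 0 := by
      intro j hj hj0
      have h2 : ∑ k ∈ range C, ((μ⁻¹) ^ j) ^ k = 0 := by
        have h3 := geom_sum_mul ((μ⁻¹) ^ j) C
        have h3' : ((μ⁻¹) ^ j) ^ C = 1 := by rw [← pow_mul, mul_comm j C, pow_mul, hinv, one_pow]
        rw [h3', sub_self] at h3
        rcases mul_eq_zero.1 h3 with h4 | h4
        · exact h4
        · exfalso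
          have h5 : μ ^ j = 1 := by
            have : (μ⁻¹) ^ j = 1 := sub_eq_zero.1 h4
            rw [inv_pow, inv_eq_one] at this
            exact this
          have h6 := (hμ.pow_eq_one_iff_dvd j).1 h5
          have h7 := Nat.le_of_dvd (Nat.pos_of_ne_zero hj0) h6
          have := mem_range.1 hj
          omega
      simp only [g]
      rw [← sum_smul]
      have h8 : ∑ k ∈ range C, μ⁻¹ ^ (k * j) = 0 := by
        rw [← h2]
        exact sum_congr rfl fun k _ => by rw [← pow_mul, mul_comm]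
      rw [h8, zero_smul]
    rw [sum_eq_single_of_mem 0 (mem_range.2 hC) h1]
    simp [g, Nat.cast_smul_eq_nsmul]
  have hx : x = (C : F)⁻¹ • ∑ k ∈ range C, ∑ j ∈ range C, g k j := by
    rw [hsum, smul_smul, inv_mul_cancel₀ hC0, one_smul]
  rw [hx]
  refine Submodule.smul_mem _ _ (Submodule.sum_mem _ fun k _ => Submodule.subset_span ⟨k, hP k⟩)

theorem h9_diag {F V : Type*} [Field F] [AddCommGroup V] [Module F V]
    (h2 : Module.finrank F V = 2) {C : ℕ} (hC : 0 < C)
    (hC0 : (C : F) ≠ 0) {μ : F} (hμ : IsPrimitiveRoot μ C) (f : V →ₗ[F] V) (hf : f ^ C = 1) :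
    ∃ (a b : ℕ) (e : V ≃ₗ[F] F × F), ∀ x, e (f x) = (μ ^ a * (e x).1, μ ^ b * (e x).2) := by
  have : Module.Finite F V := Module.finite_of_finrank_pos (by rw [h2]; norm_num)
  obtain ⟨s, hs, hs2, hs3⟩ := exists_linearIndependent F {x : V | ∃ k : ℕ, f x = μ ^ k • x}
  rw [h9_span hC hC0 hμ f hf] at hs2
  let b : Module.Basis s F V := Module.Basis.mk hs3 (by rw [Subtype.range_coe, hs2])
  have hfin : Finite s := Module.Finite.finite_basis b
  have : Fintype s := Fintype.ofFinite s
  have hcard : Fintype.card s = 2 := by rw [← Module.finrank_eq_card_basis b, h2]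
  let b' : Module.Basis (Fin 2) F V := b.reindex (Fintype.equivFinOfCardEq hcard)
  have hb' : ∀ i, ∃ k : ℕ, f (b' i) = μ ^ k • b' i := by
    intro i
    have : b' i = (((Fintype.equivFinOfCardEq hcard).symm i : s) : V) := by
      simp [b', b]
    rw [this]
    exact hs ((Fintype.equivFinOfCardEq hcard).symm i).2
  choose k hk using hb'
  refine ⟨k 0, k 1, b'.equivFun.trans (LinearEquiv.finTwoArrow F F), ?_⟩
  intro x
  have hx : f x = ∑ i, (b'.equivFun x i * μ ^ k i) • b' i := by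
    conv_lhs => rw [← b'.sum_equivFun x, map_sum]
    exact sum_congr rfl fun i _ => by rw [map_smul, hk, smul_smul]
  have h3 : b'.equivFun (f x) = fun i => b'.equivFun x i * μ ^ k i := by
    rw [hx, ← b'.equivFun_symm_apply, LinearEquiv.apply_symm_apply]
  have h4 : ∀ g : Fin 2 → F, LinearEquiv.finTwoArrow F F g = (g 0, g 1) := fun g => rfl
  rw [LinearEquiv.trans_apply, LinearEquiv.trans_apply, h3, h4, h4, mul_comm, mul_comm (μ ^ k 1)]

end Pool.Agent.helper74.GN
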