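import Pool.Agent.helper74.GN.Defs
import Pool.Agent.helper9.GN.GN5b
import Pool.Agent.helper9.GN.Diag

/-! # GNU project (MP_d11331_al), module GN9a: `C` acting on a group of order `v ^ 2` -/

namespace Pool.Agent.helper74.GN

/-- the diagonal automorphism -/
def h9_dg {v : ℕ} (a b : (ZMod v)ˣ) : MulAut (Multiplicative (ZMod v × ZMod v)) :=
  AddEquiv.toMultiplicative ((DistribMulAction.toAddEquiv (ZMod v) a).prodCongr
    (DistribMulAction.toAddEquiv (ZMod v) b))

theorem h9_dg_apply {v : ℕ} (a b : (ZMod v)ˣ) (x : Multiplicative (ZMod v × ZMod v)) :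
    h9_dg a b x = Multiplicative.ofAdd ((a : ZMod v) * (Multiplicative.toAdd x).1,
      (b : ZMod v) * (Multiplicative.toAdd x).2) := rfl

theorem h9_dg_mul {v : ℕ} (a b a' b' : (ZMod v)ˣ) :
    h9_dg a b * h9_dg a' b' = h9_dg (a * a') (b * b') := by
  refine MulEquiv.ext fun x => ?_
  rw [MulAut.mul_apply, h9_dg_apply, h9_dg_apply, h9_dg_apply]
  simp [mul_assoc]

theorem h9_dg_one {v : ℕ} : h9_dg (1 : (ZMod v)ˣ) 1 = 1 := by
  refine MulEquiv.ext fun x => ?_
  rw [h9_dg_apply]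
  simp

theorem h9_dg_pow {v : ℕ} (a b : (ZMod v)ˣ) (n : ℕ) : h9_dg a b ^ n = h9_dg (a ^ n) (b ^ n) := by
  induction n with
  | zero => rw [pow_zero, pow_zero, pow_zero, h9_dg_one]
  | succ n ih => rw [pow_succ, ih, h9_dg_mul, pow_succ, pow_succ]

theorem h9_sc_mul {n : ℕ} (a b : (ZMod n)ˣ) :
    (sc a : MulAut (Multiplicative (ZMod n))) * sc b = sc (a * b) := by
  refine MulEquiv.ext fun x => ?_
  rw [MulAut.mul_apply]
  simp [mul_assoc]

theorem h9_sc_one {n : ℕ} : (sc (1 : (ZMod n)ˣ) : MulAut (Multiplicative (ZMod n))) = 1 := by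
  refine MulEquiv.ext fun x => ?_
  simp

theorem h9_sc_pow {m : ℕ} (a : (ZMod m)ˣ) (n : ℕ) :
    (sc a : MulAut (Multiplicative (ZMod m))) ^ n = sc (a ^ n) := by
  induction n with
  | zero => rw [pow_zero, pow_zero, h9_sc_one]
  | succ n ih => rw [pow_succ, ih, h9_sc_mul, pow_succ]

theorem h9_sc_inj {n : ℕ} {a b : (ZMod n)ˣ}
    (h : (sc a : MulAut (Multiplicative (ZMod n))) = sc b) : a = b := by
  have := congrArg (fun f : MulAut (Multiplicative (ZMod n)) =>
    Multiplicative.toAdd (f (Multiplicative.ofAdd 1))) h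
  simp only [sc_apply, toAdd_ofAdd, mul_one] at this
  exact Units.ext this

theorem h9_dg_inj {v : ℕ} {a b a' b' : (ZMod v)ˣ} (h : h9_dg a b = h9_dg a' b') :
    a = a' ∧ b = b' := by
  have := congrArg (fun f : MulAut (Multiplicative (ZMod v × ZMod v)) =>
    Multiplicative.toAdd (f (Multiplicative.ofAdd (1, 1)))) h
  simp only [h9_dg_apply, toAdd_ofAdd, mul_one, Prod.mk.injEq] at this
  exact ⟨Units.ext this.1, Units.ext this.2⟩

/-- every automorphism of a cyclic group is a multiplication -/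
theorem h9_aut_cyc {n : ℕ} (f : MulAut (Multiplicative (ZMod n))) :
    ∃ s : (ZMod n)ˣ, f = sc s := by
  have key : ∀ g : MulAut (Multiplicative (ZMod n)), ∀ k : ZMod n,
      Multiplicative.toAdd (g (Multiplicative.ofAdd k)) =
        Multiplicative.toAdd (g (Multiplicative.ofAdd 1)) * k := by
    intro g k
    obtain ⟨z, rfl⟩ := ZMod.intCast_surjective k
    have : Multiplicative.ofAdd ((z : ℤ) : ZMod n) = (Multiplicative.ofAdd (1 : ZMod n)) ^ z := by
      rw [← ofAdd_zsmul]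
      simp
    rw [this, map_zpow, toAdd_zpow, zsmul_eq_mul, mul_comm]
  set s := Multiplicative.toAdd (f (Multiplicative.ofAdd 1)) with hs
  set t := Multiplicative.toAdd (f⁻¹ (Multiplicative.ofAdd 1)) with ht
  have h1 : s * t = 1 := by
    have := key f t
    rw [← hs] at this
    rw [← this, ht]
    simp
  refine ⟨⟨s, t, h1, by rw [mul_comm, h1]⟩, ?_⟩
  refine MulEquiv.ext fun x => ?_
  rw [sc_apply]
  apply Multiplicative.toAdd.injective
  rw [toAdd_ofAdd]
  have := key f (Multiplicative.toAdd x)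
  rwa [ofAdd_toAdd] at this

theorem h9_mem_zpowers {G : Type} [CommGroup G] [Finite G] [IsCyclic G] {g x : G} {n : ℕ}
    (hg : orderOf g = n) (hx : x ^ n = 1) : ∃ k : ℕ, x = g ^ k := by
  have h1 : Subgroup.zpowers g ≤ (powMonoidHom n : G →* G).ker := by
    rw [Subgroup.zpowers_le, MonoidHom.mem_ker, powMonoidHom_apply, ← hg, pow_orderOf_eq_one]
  have h2 : Nat.card (powMonoidHom n : G →* G).ker ≤ Nat.card (Subgroup.zpowers g) := by
    rw [IsCyclic.card_powMonoidHom_ker, Nat.card_zpowers, hg, Nat.gcd_eq_right]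
    rw [← hg]
    exact orderOf_dvd_natCard g
  have h3 := Subgroup.eq_of_le_of_card_ge h1 h2
  have h4 : x ∈ Subgroup.zpowers g := by
    rw [h3, MonoidHom.mem_ker, powMonoidHom_apply, hx]
  obtain ⟨k, hk⟩ := mem_powers_iff_mem_zpowers.2 h4
  exact ⟨k, hk.symm⟩

theorem h9_pow_val {G : Type*} [Monoid G] {g : G} {C : ℕ} (hg : g ^ C = 1) {a : ZMod C} {k : ℕ}
    (h : a = k) : g ^ a.val = g ^ k := by
  subst h
  rw [ZMod.val_natCast, ← pow_eq_pow_mod k hg]

theorem h9_cyc_complete {C v : ℕ} (hC : C.Prime) {u₀ : (ZMod (v ^ 2))ˣ} [Finite (ZMod (v ^ 2))ˣ]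
    [IsCyclic (ZMod (v ^ 2))ˣ] (hu₀ : orderOf u₀ = C) {H : Type} [Group H]
    (hH : Nat.card H = v ^ 2) (hc : IsCyclic H) (c : MulAut H) (hcC : c ^ C = 1) (hc1 : c ≠ 1) :
    ∃ (u : (ZMod C)ˣ) (e : H ≃* Multiplicative (ZMod (v ^ 2))), ∀ x,
      e (c x) = ((sc u₀ : MulAut (Multiplicative (ZMod (v ^ 2)))) ^ (u : ZMod C).val) (e x) := by
  obtain ⟨e⟩ := h9_cyc hH hc
  obtain ⟨s, hs⟩ := h9_aut_cyc (MulAut.congr e c)
  have h1 : ∀ x, e (c x) = sc s (e x) := by
    intro x
    rw [← hs]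
    simp [MulAut.congr]
  have h2 : s ^ C = 1 := by
    apply h9_sc_inj
    rw [← h9_sc_pow, ← hs, ← map_pow, hcC, map_one, h9_sc_one]
  have h3 : s ≠ 1 := by
    rintro rfl
    apply hc1
    apply (MulAut.congr e).injective
    rw [hs, h9_sc_one, map_one]
  obtain ⟨k, hk⟩ := h9_mem_zpowers hu₀ h2
  have h4 : ¬ C ∣ k := by
    intro h
    apply h3
    rw [hk, ← orderOf_dvd_iff_pow_eq_one, hu₀]
    exact h
  refine ⟨ZMod.unitOfCoprime k ((hC.coprime_iff_not_dvd.2 h4).symm), e, fun x => ?_⟩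
  rw [h1, h9_sc_pow, h9_pow_val (k := k) (by rw [← hu₀]; exact pow_orderOf_eq_one u₀)
    (ZMod.coe_unitOfCoprime k _), ← hk]

theorem h9_ea_complete' {C v : ℕ} [Fact v.Prime] (hC : 0 < C) (hCv : (C : ZMod v) ≠ 0)
    {μ : (ZMod v)ˣ} (hμ : orderOf μ = C) {H : Type} [CommGroup H] (hH : Nat.card H = v ^ 2)
    [Module (ZMod v) (Additive H)] (c : MulAut H) (hcC : c ^ C = 1) :
    ∃ (a b : ℕ) (e : H ≃* Multiplicative (ZMod v × ZMod v)), ∀ x,
      e (c x) = h9_dg (μ ^ a) (μ ^ b) (e x) := by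
  let f : Additive H →ₗ[ZMod v] Additive H :=
    AddMonoidHom.toZModLinearMap v (MonoidHom.toAdditive c.toMonoidHom)
  have hf : ∀ x : H, f (Additive.ofMul x) = Additive.ofMul (c x) := fun x => rfl
  have hfn : ∀ (n : ℕ) (x : H), (f ^ n) (Additive.ofMul x) = Additive.ofMul ((c ^ n) x) := by
    intro n
    induction n with
    | zero => intro x; simp
    | succ n ih =>
      intro x
      rw [pow_succ, Module.End.mul_apply, hf, ih, pow_succ, MulAut.mul_apply]
  have hfC : f ^ C = 1 := by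
    refine LinearMap.ext fun x => ?_
    have := hfn C (Additive.toMul x)
    rw [ofMul_toMul, hcC] at this
    rw [this]
    simp
  have hprim : IsPrimitiveRoot (μ : ZMod v) C := by
    rw [IsPrimitiveRoot.coe_units_iff, ← hμ]
    exact IsPrimitiveRoot.orderOf μ
  obtain ⟨a, b, e, he⟩ := h9_diag (h9_ea (v := v) hH) hC hCv hprim f hfC
  refine ⟨a, b, AddEquiv.toMultiplicativeRight e.toAddEquiv, fun x => ?_⟩
  rw [h9_dg_apply]
  apply Multiplicative.toAdd.injective
  have := he (Additive.ofMul x)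
  rw [hf] at this
  show e (Additive.ofMul (c x)) = _
  rw [this]
  rw [toAdd_ofAdd, Units.val_pow_eq_pow_val, Units.val_pow_eq_pow_val]
  rfl

theorem h9_ea_complete {C v : ℕ} (hv : v.Prime) (hC : 0 < C) (hCv : (C : ZMod v) ≠ 0)
    {μ : (ZMod v)ˣ} (hμ : orderOf μ = C) {H : Type} [Group H] (hH : Nat.card H = v ^ 2)
    (hx : ∀ x : H, x ^ v = 1) (c : MulAut H) (hcC : c ^ C = 1) :
    ∃ (a b : ℕ) (e : H ≃* Multiplicative (ZMod v × ZMod v)), ∀ x,
      e (c x) = h9_dg (μ ^ a) (μ ^ b) (e x) := by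
  have : Fact v.Prime := ⟨hv⟩
  let _ : CommGroup H := IsPGroup.commGroupOfCardEqPrimeSq hH
  have h0 : ∀ x : Additive H, v • x = 0 := fun x => hx x
  let _ : Module (ZMod v) (Additive H) := AddCommGroup.zmodModule h0
  exact h9_ea_complete' hC hCv hμ hH c hcC

theorem h9_index {C : ℕ} (hC : C.Prime) (h2 : 2 < C) : ∃ r : Fin ((C + 3) / 2) → ZMod C,
    (∀ x, ∃ i, r i = x ∨ x * r i = 1) ∧ (∀ i j, (r i = r j ∨ r i * r j = 1) → i = j) := by
  have : Fact C.Prime := ⟨hC⟩
  obtain ⟨m, hm⟩ := hC.odd_of_ne_two (by omega)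
  have hm1 : 0 < m := by omega
  have hc : (C + 3) / 2 = m + 2 := by omega
  rw [hc]
  obtain ⟨g, hg⟩ := IsCyclic.exists_generator (α := (ZMod C)ˣ)
  have hog : orderOf g = 2 * m := by
    rw [orderOf_eq_card_of_forall_mem_zpowers hg, Nat.card_eq_fintype_card,
      ZMod.card_units_eq_totient, Nat.totient_prime hC]
    omega
  have hpow : g ^ (2 * m) = 1 := by rw [← hog]; exact pow_orderOf_eq_one g
  refine ⟨fun i => if i.val = 0 then 0 else ((g ^ (i.val - 1) : (ZMod C)ˣ) : ZMod C), ?_, ?_⟩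
  · intro x
    by_cases hx : x = 0
    · refine ⟨⟨0, by omega⟩, Or.inl ?_⟩
      simp [hx]
    · obtain ⟨k, hk1, hk2⟩ : ∃ k, k < 2 * m ∧ ((g ^ k : (ZMod C)ˣ) : ZMod C) = x := by
        obtain ⟨k, hk⟩ := mem_powers_iff_mem_zpowers.2 (hg (Units.mk0 x hx))
        refine ⟨k % (2 * m), Nat.mod_lt _ (by omega), ?_⟩
        rw [← pow_eq_pow_mod k hpow]
        have := congrArg (Units.val) hk
        simpa using this
      by_cases hkm : k ≤ m
      · refine ⟨⟨k + 1, by omega⟩, Or.inl ?_⟩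
        simp only [Nat.add_eq_zero_iff, one_ne_zero, and_false, if_false, Nat.add_sub_cancel]
        exact hk2
      · refine ⟨⟨2 * m - k + 1, by omega⟩, Or.inr ?_⟩
        simp only [Nat.add_eq_zero_iff, one_ne_zero, and_false, if_false, Nat.add_sub_cancel]
        rw [← hk2, ← Units.val_mul, ← pow_add, Nat.add_sub_cancel' hk1.le, hpow, Units.val_one]
  · intro i j hij
    dsimp only at hij
    apply Fin.ext
    have hi := i.2
    have hj := j.2
    by_cases hi0 : i.val = 0
    · by_cases hj0 : j.val = 0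
      · rw [hi0, hj0]
      · exfalso
        rw [if_pos hi0, if_neg hj0] at hij
        rcases hij with h | h
        · exact (Units.ne_zero _) h.symm
        · rw [zero_mul] at h
          exact zero_ne_one h
    · by_cases hj0 : j.val = 0
      · exfalso
        rw [if_neg hi0, if_pos hj0] at hij
        rcases hij with h | h
        · exact (Units.ne_zero _) h
        · rw [mul_zero] at h
          exact zero_ne_one h
      · rw [if_neg hi0, if_neg hj0] at hij
        rcases hij with h | h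
        · have h3 := Units.ext h
          rw [pow_eq_pow_iff_modEq, hog] at h3
          have h4 := Nat.ModEq.eq_of_lt_of_lt h3 (by omega) (by omega)
          omega
        · rw [← Units.val_mul, ← pow_add] at h
          have h3 : g ^ (i.val - 1 + (j.val - 1)) = 1 := Units.ext h
          rw [← orderOf_dvd_iff_pow_eq_one, hog] at h3
          obtain ⟨t, ht⟩ := h3
          have h5 : t < 2 := by
            by_contra h6
            push Not at h6
            have : 2 * m * 2 ≤ 2 * m * t := Nat.mul_le_mul_left _ h6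
            omega
          interval_cases t <;> omega

theorem h9_dg_conj {v : ℕ} [Fact v.Prime] {a b a' b' : (ZMod v)ˣ}
    (e : Multiplicative (ZMod v × ZMod v) ≃* Multiplicative (ZMod v × ZMod v))
    (h : ∀ x, e (h9_dg a b x) = h9_dg a' b' (e x)) :
    (a = a' ∧ b = b') ∨ (a = b' ∧ b = a') := by
  let f : (ZMod v × ZMod v) →ₗ[ZMod v] (ZMod v × ZMod v) :=
    AddMonoidHom.toZModLinearMap v (AddMonoidHom.toMultiplicative.symm e.toMonoidHom)
  have hf : ∀ x, f x = Multiplicative.toAdd (e (Multiplicative.ofAdd x)) := fun x => rfl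
  have hinj : ∀ x, f x = 0 → x = 0 := by
    intro x hx
    rw [hf] at hx
    have h1 : e (Multiplicative.ofAdd x) = e 1 := by
      rw [map_one]
      exact Multiplicative.toAdd.injective hx
    exact Multiplicative.ofAdd.injective (e.injective h1)
  have hc : ∀ x, f ((a : ZMod v) * x.1, (b : ZMod v) * x.2) =
      ((a' : ZMod v) * (f x).1, (b' : ZMod v) * (f x).2) := by
    intro x
    have := congrArg Multiplicative.toAdd (h (Multiplicative.ofAdd x))
    rw [h9_dg_apply, h9_dg_apply] at this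
    exact this
  obtain ⟨p, q, hpq⟩ : ∃ p q, f (1, 0) = (p, q) := ⟨_, _, rfl⟩
  obtain ⟨s, t, hst⟩ : ∃ s t, f (0, 1) = (s, t) := ⟨_, _, rfl⟩
  have hlin : ∀ x y : ZMod v, f (x, y) = (x * p + y * s, x * q + y * t) := by
    intro x y
    have h1 : ((x, y) : ZMod v × ZMod v) = x • (1, 0) + y • (0, 1) := by
      ext <;> simp
    rw [h1, map_add, map_smul, map_smul, hpq, hst]
    ext <;> simp
  have h1 := hc (1, 0)
  have h2 := hc (0, 1)
  rw [hpq] at h1
  rw [hst] at h2
  simp only [mul_one, mul_zero, hlin, zero_mul, add_zero, zero_add, Prod.mk.injEq] at h1 h2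
  have h3 : p * t - q * s ≠ 0 := by
    intro h0
    have h4 : f (t, -q) = 0 := by
      rw [hlin]
      ext
      · show t * p + -q * s = 0
        linear_combination h0
      · show t * q + -q * t = 0
        ring
    have h5 : f (s, -p) = 0 := by
      rw [hlin]
      ext
      · show s * p + -p * s = 0
        ring
      · show s * q + -p * t = 0
        linear_combination -h0
    have h6 := hinj _ h4
    have h7 := hinj _ h5
    rw [Prod.mk_eq_zero] at h6 h7
    have h8 : f (1, 0) = 0 := by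
      rw [hpq, neg_eq_zero.1 h7.2, neg_eq_zero.1 h6.2]
      rfl
    have h9 := hinj _ h8
    rw [Prod.mk_eq_zero] at h9
    exact one_ne_zero h9.1
  by_cases hp : p * t = 0
  · have hqs : q * s ≠ 0 := fun h0 => h3 (by rw [hp, h0, sub_zero])
    right
    exact ⟨Units.ext (mul_right_cancel₀ (left_ne_zero_of_mul hqs) h1.2),
      Units.ext (mul_right_cancel₀ (right_ne_zero_of_mul hqs) h2.1)⟩
  · left
    exact ⟨Units.ext (mul_right_cancel₀ (left_ne_zero_of_mul hp) h1.1),
      Units.ext (mul_right_cancel₀ (right_ne_zero_of_mul hp) h2.2)⟩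

/-- swap of coordinates -/
def h9_sw (v : ℕ) : Multiplicative (ZMod v × ZMod v) ≃* Multiplicative (ZMod v × ZMod v) :=
  AddEquiv.toMultiplicative AddEquiv.prodComm

theorem h9_sw_dg {v : ℕ} (a b : (ZMod v)ˣ) (x : Multiplicative (ZMod v × ZMod v)) :
    h9_sw v (h9_dg a b x) = h9_dg b a (h9_sw v x) := rfl

/-- the groups of the list -/
abbrev h9_A (v k : ℕ) : Fin 1 ⊕ Fin k → Type := fun i => match i with
  | .inl _ => Multiplicative (ZMod (v ^ 2))
  | .inr _ => Multiplicative (ZMod v × ZMod v)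

instance h9_instA (v k : ℕ) : ∀ i, CommGroup (h9_A v k i) := fun i => match i with
  | .inl _ => inferInstanceAs (CommGroup (Multiplicative (ZMod (v ^ 2))))
  | .inr _ => inferInstanceAs (CommGroup (Multiplicative (ZMod v × ZMod v)))

/-- the automorphisms of the list -/
def h9_g {C v k : ℕ} (u₀ : (ZMod (v ^ 2))ˣ) (μ : (ZMod v)ˣ) (r : Fin k → ZMod C) :
    ∀ i, MulAut (h9_A v k i) := fun i => match i with
  | .inl _ => (sc u₀ : MulAut (Multiplicative (ZMod (v ^ 2))))
  | .inr i => (h9_dg μ (μ ^ (r i).val) : MulAut (Multiplicative (ZMod v × ZMod v)))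

theorem h9_blockVC {C v : ℕ} (hC : C.Prime) (hv : v.Prime) (h2 : 2 < C)
    (hvC : (v : ZMod C) = 1) : ∃ (A : Fin 1 ⊕ Fin ((C + 3) / 2) → Type)
    (_ : ∀ i, CommGroup (A i))
    (γ : ∀ i, MulAut (A i)), (∀ i, Nat.card (A i) = v ^ 2) ∧ (∀ i, γ i ^ C = 1) ∧
    (∀ i, γ i ≠ 1) ∧
    (∀ (H : Type) [Group H], Nat.card H = v ^ 2 → ∀ c : MulAut H, c ^ C = 1 → c ≠ 1 →
      ∃ (i : _) (u : (ZMod C)ˣ) (e : H ≃* A i), ∀ x, e (c x) = (γ i ^ (u : ZMod C).val) (e x)) ∧
    (∀ i j (u : (ZMod C)ˣ), (∃ e : A i ≃* A j, ∀ x,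
      e ((γ i ^ (u : ZMod C).val) x) = γ j (e x)) → i = j) := by
  have : Fact v.Prime := ⟨hv⟩
  have : Fact C.Prime := ⟨hC⟩
  have hv2 : v ≠ 2 := by
    rintro rfl
    have h1 : ((1 : ℕ) : ZMod C) = 0 := by
      have : ((2 : ℕ) : ZMod C) = 1 + 1 := by norm_num
      rw [this] at hvC
      simp at hvC
    rw [ZMod.natCast_eq_zero_iff] at h1
    exact hC.one_lt.ne' (Nat.dvd_one.1 h1)
  have hdvd : C ∣ v - 1 := by
    rw [← ZMod.natCast_eq_zero_iff, Nat.cast_sub hv.one_le, hvC]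
    simp
  have hCv : (C : ZMod v) ≠ 0 := by
    rw [Ne, ZMod.natCast_eq_zero_iff]
    intro h
    have h1 := Nat.le_of_dvd hC.pos h
    have h2 := Nat.le_of_dvd (by have := hv.two_le; omega) hdvd
    have := hv.two_le
    omega
  obtain ⟨μ, hμ⟩ : ∃ μ : (ZMod v)ˣ, orderOf μ = C := by
    refine exists_prime_orderOf_dvd_card C ?_
    rw [ZMod.card_units_eq_totient, Nat.totient_prime hv]
    exact hdvd
  have : NeZero (v ^ 2) := ⟨pow_ne_zero 2 hv.ne_zero⟩
  obtain ⟨u₀, hu₀⟩ : ∃ u₀ : (ZMod (v ^ 2))ˣ, orderOf u₀ = C := by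
    refine exists_prime_orderOf_dvd_card C ?_
    rw [ZMod.card_units_eq_totient, Nat.totient_prime_pow hv (by norm_num)]
    exact Dvd.dvd.mul_left hdvd _
  have hcyc : IsCyclic (ZMod (v ^ 2))ˣ := ZMod.isCyclic_units_of_prime_pow v hv hv2 2
  obtain ⟨r, hr1, hr2⟩ := h9_index hC h2
  have hμC : μ ^ C = 1 := by rw [← hμ]; exact pow_orderOf_eq_one μ
  have hu₀C : u₀ ^ C = 1 := by rw [← hu₀]; exact pow_orderOf_eq_one u₀
  have hμ1 : μ ≠ 1 := by
    rintro rfl
    rw [orderOf_one] at hμ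
    exact hC.one_lt.ne hμ
  refine ⟨h9_A v _, h9_instA v _, h9_g u₀ μ r, ?_, ?_, ?_, ?_, ?_⟩
  · rintro (i | i)
    · exact Nat.card_zmod _
    · show Nat.card (ZMod v × ZMod v) = _
      rw [Nat.card_prod, Nat.card_zmod, sq]
  · rintro (i | i)
    · show (sc u₀ : MulAut (Multiplicative (ZMod (v ^ 2)))) ^ C = 1
      rw [h9_sc_pow, hu₀C, h9_sc_one]
    · show (h9_dg μ (μ ^ (r i).val)) ^ C = 1
      rw [h9_dg_pow, hμC, ← pow_mul, mul_comm, pow_mul, hμC, one_pow, h9_dg_one]
  · rintro (i | i)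
    · show (sc u₀ : MulAut (Multiplicative (ZMod (v ^ 2)))) ≠ 1
      intro h
      rw [← h9_sc_one] at h
      have := h9_sc_inj h
      rw [this, orderOf_one] at hu₀
      exact hC.one_lt.ne hu₀
    · show (h9_dg μ (μ ^ (r i).val)) ≠ 1
      intro h
      rw [← h9_dg_one] at h
      exact hμ1 (h9_dg_inj h).1
  · intro H _ hH c hcC hc1
    rcases h9_dich hv hH with hcy | hex
    · obtain ⟨u, e, he⟩ := h9_cyc_complete hC hu₀ hH hcy c hcC hc1
      exact ⟨.inl 0, u, e, he⟩
    · obtain ⟨a, b, e, he⟩ := h9_ea_complete hv hC.pos hCv hμ hH hex c hcC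
      have hred : ∀ (k : ℕ) (x y : ZMod C), x * y = (k : ZMod C) →
          (μ ^ x.val) ^ y.val = μ ^ k := by
        intro k x y hxy
        rw [← pow_mul]
        have h1 : ((x.val * y.val : ℕ) : ZMod C) = (k : ZMod C) := by
          rw [Nat.cast_mul, ZMod.natCast_zmod_val, ZMod.natCast_zmod_val, hxy]
        rw [pow_eq_pow_iff_modEq, hμ]
        exact (ZMod.natCast_eq_natCast_iff _ _ _).1 h1
      by_cases ha : (a : ZMod C) = 0
      · have hb : (b : ZMod C) ≠ 0 := by
          intro hb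
          apply hc1
          refine MulEquiv.ext fun x => e.injective ?_
          rw [he]
          rw [ZMod.natCast_eq_zero_iff] at ha hb
          rw [orderOf_dvd_iff_pow_eq_one.1 (hμ ▸ ha), orderOf_dvd_iff_pow_eq_one.1 (hμ ▸ hb),
            h9_dg_one]
          rfl
        obtain ⟨i, hi⟩ := hr1 0
        have hi' : r i = 0 := by
          rcases hi with h | h
          · exact h
          · rw [zero_mul] at h
            exact (zero_ne_one h).elim
        refine ⟨.inr i, Units.mk0 _ hb, e.trans (h9_sw v), fun x => ?_⟩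
        show h9_sw v (e (c x)) = ((h9_dg μ (μ ^ (r i).val)) ^ (b : ZMod C).val) (h9_sw v (e x))
        rw [he, h9_sw_dg, h9_dg_pow, h9_pow_val hμC (k := b) rfl,
          hred a (r i) _ (by rw [hi', zero_mul, ha])]
      · obtain ⟨i, hi⟩ := hr1 ((b : ZMod C) * (a : ZMod C)⁻¹)
        rcases hi with h | h
        · refine ⟨.inr i, Units.mk0 _ ha, e, fun x => ?_⟩
          show e (c x) = ((h9_dg μ (μ ^ (r i).val)) ^ (a : ZMod C).val) (e x)
          rw [he, h9_dg_pow, h9_pow_val hμC (k := a) rfl,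
            hred b (r i) _ (by rw [h, mul_assoc, inv_mul_cancel₀ ha, mul_one])]
        · have hb : (b : ZMod C) ≠ 0 := by
            intro hb
            rw [hb, zero_mul, zero_mul] at h
            exact zero_ne_one h
          refine ⟨.inr i, Units.mk0 _ hb, e.trans (h9_sw v), fun x => ?_⟩
          show h9_sw v (e (c x)) = ((h9_dg μ (μ ^ (r i).val)) ^ (b : ZMod C).val) (h9_sw v (e x))
          rw [he, h9_sw_dg, h9_dg_pow, h9_pow_val hμC (k := b) rfl, hred a (r i) _ ?_]
          have h5 : (a : ZMod C) = (a : ZMod C) * ((b : ZMod C) * (a : ZMod C)⁻¹ * r i) := by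
            rw [h, mul_one]
          rw [h5]
          field_simp
  · rintro (i | i) (j | j) u ⟨e, he⟩
    · rw [Subsingleton.elim i j]
    · exact (h9_not_iso hv e).elim
    · exact (h9_not_iso hv e.symm).elim
    · have he' : ∀ x, e (h9_dg (μ ^ (u : ZMod C).val) ((μ ^ (r i).val) ^ (u : ZMod C).val) x) =
          h9_dg μ (μ ^ (r j).val) (e x) := by
        intro x
        rw [← h9_dg_pow]
        exact he x
      have hpow : ∀ k l : ℕ, μ ^ k = μ ^ l → (k : ZMod C) = (l : ZMod C) := by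
        intro k l h
        rw [pow_eq_pow_iff_modEq, hμ] at h
        exact (ZMod.natCast_eq_natCast_iff _ _ _).2 h
      have h3 := h9_dg_conj e he'
      rw [← pow_mul] at h3
      have hij : r i = r j ∨ r i * r j = 1 := by
        rcases h3 with ⟨h4, h5⟩ | ⟨h4, h5⟩
        · left
          have h6 := hpow (u : ZMod C).val 1 (by rw [pow_one]; exact h4)
          have h7 := hpow _ _ h5
          rw [Nat.cast_mul] at h7
          simp only [ZMod.natCast_zmod_val, Nat.cast_one] at h6 h7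
          rw [h6, mul_one] at h7
          exact h7
        · right
          have h6 := hpow _ _ h4
          have h7 := hpow ((r i).val * (u : ZMod C).val) 1 (by rw [pow_one]; exact h5)
          rw [Nat.cast_mul] at h7
          simp only [ZMod.natCast_zmod_val, Nat.cast_one] at h6 h7
          rw [← h6, h7]
      rw [hr2 i j hij]

/-- GN9a: `C` acting on a group of order `v ^ 2`. -/
theorem blockVC {C v : ℕ} (hC : C.Prime) (hv : v.Prime) (h2 : 2 < C)
    (hvC : (v : ZMod C) = 1) : ∃ (A : Fin (1 + (C + 3) / 2) → Type) (_ : ∀ i, CommGroup (A i))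
    (γ : ∀ i, MulAut (A i)), (∀ i, Nat.card (A i) = v ^ 2) ∧ (∀ i, γ i ^ C = 1) ∧
    (∀ i, γ i ≠ 1) ∧
    (∀ (H : Type) [Group H], Nat.card H = v ^ 2 → ∀ c : MulAut H, c ^ C = 1 → c ≠ 1 →
      ∃ (i : _) (u : (ZMod C)ˣ) (e : H ≃* A i), ∀ x, e (c x) = (γ i ^ (u : ZMod C).val) (e x)) ∧
    (∀ i j (u : (ZMod C)ˣ), (∃ e : A i ≃* A j, ∀ x,
      e ((γ i ^ (u : ZMod C).val) x) = γ j (e x)) → i = j) := by
  obtain ⟨A, inst, γ, h1, h3, h4, h5, h6⟩ := h9_blockVC hC hv h2 hvC
  let E : Fin 1 ⊕ Fin ((C + 3) / 2) ≃ Fin (1 + (C + 3) / 2) := finSumFinEquiv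
  refine ⟨fun i => A (E.symm i), fun i => inst (E.symm i), fun i => γ (E.symm i),
    fun i => h1 _, fun i => h3 _, fun i => h4 _, ?_, ?_⟩
  · intro H _ hH c hcC hc1
    obtain ⟨i, u, e, he⟩ := h5 H hH c hcC hc1
    obtain ⟨k, rfl⟩ := E.symm.surjective i
    exact ⟨k, u, e, he⟩
  · intro i j u h
    exact E.symm.injective (h6 _ _ u h)

end Pool.Agent.helper74.GN
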